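import Mathlib

/-
Definitions for the problem on log rational connectedness, for pairs inside complex
projective space.
-/

namespace Pool.Agent.MP_776d16_ag.H55

open MvPolynomial

/-- Complex projective `n`-space. -/
abbrev PP (n : ℕ) := Projectivization ℂ (Fin (n + 1) → ℂ)

/-- The zero set in projective space of a form `f`. -/
def zeroSet {n : ℕ} (f : MvPolynomial (Fin (n + 1)) ℂ) : Set (PP n) :=
  {p | eval p.rep f = 0}

/-- A rational curve in projective space: the image of a nonconstant morphism from the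
projective line, that is, the set of points `[F 0 t : ... : F n t]`, `t ≠ 0` in `ℂ^2`, where the
`F i` are binary forms of one degree `e` with no common zero `t ≠ 0`, the image having at
least two points. -/
def IsRationalCurve {n : ℕ} (Γ : Set (PP n)) : Prop :=
  ∃ (e : ℕ) (F : Fin (n + 1) → MvPolynomial (Fin 2) ℂ), (∀ i, (F i).IsHomogeneous e) ∧
    ∃ h : ∀ t : Fin 2 → ℂ, t ≠ 0 → (fun i => eval t (F i)) ≠ 0,
      Γ = {p | ∃ (t : Fin 2 → ℂ) (ht : t ≠ 0),
        p = Projectivization.mk ℂ (fun i => eval t (F i)) (h t ht)} ∧ Γ.Nontrivial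

/-- Log rational connectedness of `(Y, D)`, for `D ⊆ Y` in projective space. -/
def LogRC {n : ℕ} (Y D : Set (PP n)) : Prop :=
  ∀ p ∈ Y, ∀ q ∈ Y \ D, ∃ Γ : Set (PP n), IsRationalCurve Γ ∧ Γ ⊆ Y ∧ p ∈ Γ ∧ q ∈ Γ ∧
    ¬ Γ ⊆ D ∧ ∃ r, Γ ∩ D = {r}

/-- `D = {f 0 = 0} + ... + {f (k-1) = 0}` is a nonzero reduced simple normal crossing divisor on
projective `n`-space with `-(K + D) = O(n + 1 - deg D)` ample. -/
structure IsSncLogFano {n k : ℕ} (f : Fin k → MvPolynomial (Fin (n + 1)) ℂ) (d : Fin k → ℕ) :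
    Prop where
  nonzero : 0 < k
  homog : ∀ i, (f i).IsHomogeneous (d i)
  irred : ∀ i, Irreducible (f i)
  distinct : ∀ i j, Associated (f i) (f j) → i = j
  snc : ∀ v : Fin (n + 1) → ℂ, v ≠ 0 →
    LinearIndependent ℂ
      (fun i : {i : Fin k // eval v (f i) = 0} => fun j => eval v (pderiv j (f i)))
  ample : ∑ i, d i < n + 1

lemma eval_smul_homog {σ : Type*} {f : MvPolynomial σ ℂ} {m : ℕ} (hf : f.IsHomogeneous m)
    (c : ℂ) (v : σ → ℂ) : eval (c • v) f = c ^ m * eval v f := by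
  classical
  rw [eval_eq, eval_eq, Finset.mul_sum]
  refine Finset.sum_congr rfl fun s hs => ?_
  have hdeg := hf.degree_eq_sum_deg_support hs
  simp only [Pi.smul_apply, smul_eq_mul, mul_pow, Finset.prod_mul_distrib,
    Finset.prod_pow_eq_pow_sum]
  rw [hdeg]; ring

lemma mk_mem_zeroSet {n m : ℕ} {f : MvPolynomial (Fin (n + 1)) ℂ} (hf : f.IsHomogeneous m)
    (v : Fin (n + 1) → ℂ) (hv : v ≠ 0) :
    Projectivization.mk ℂ v hv ∈ zeroSet f ↔ eval v f = 0 := by
  obtain ⟨a, ha⟩ := Projectivization.exists_smul_eq_mk_rep ℂ v hv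
  simp only [zeroSet, Set.mem_ofPred_eq]
  rw [← ha, Units.smul_def, eval_smul_homog hf]
  simp

/-- a binary form of positive degree has a nontrivial zero -/
lemma exists_zero_binary {h : MvPolynomial (Fin 2) ℂ} {m : ℕ} (hh : h.IsHomogeneous m)
    (hm : 0 < m) : ∃ t : Fin 2 → ℂ, t ≠ 0 ∧ eval t h = 0 := by
  by_contra hcon
  push Not at hcon
  -- P s = h (s, 1), Q s = h (1, s)
  set P : Polynomial ℂ := aeval ![Polynomial.X, 1] h with hP
  set Q : Polynomial ℂ := aeval ![1, Polynomial.X] h with hQ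
  have hPe : ∀ s : ℂ, P.eval s = eval ![s, 1] h := by
    intro s
    have : (Polynomial.aeval s : Polynomial ℂ →ₐ[ℂ] ℂ).comp (aeval ![Polynomial.X, 1]) =
        aeval ![s, 1] := by
      ext i; fin_cases i <;> simp
    have h2 := DFunLike.congr_fun this h
    simpa [hP, Polynomial.aeval_def, aeval_eq_eval] using h2
  have hQe : ∀ s : ℂ, Q.eval s = eval ![1, s] h := by
    intro s
    have : (Polynomial.aeval s : Polynomial ℂ →ₐ[ℂ] ℂ).comp (aeval ![1, Polynomial.X]) =
        aeval ![1, s] := by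
      ext i; fin_cases i <;> simp
    have h2 := DFunLike.congr_fun this h
    simpa [hQ, Polynomial.aeval_def, aeval_eq_eval] using h2
  have hPdeg : P.degree = 0 := by
    by_contra hne
    have hP0 : P ≠ 0 := by
      intro h0
      have := hcon ![0, 1] (by intro h1; simpa using congrFun h1 1)
      rw [← hPe, h0] at this; simp at this
    obtain ⟨s, hs⟩ := IsAlgClosed.exists_root P hne
    have := hcon ![s, 1] (by intro h1; simpa using congrFun h1 1)
    rw [← hPe] at this
    exact this hs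
  obtain ⟨c, hc⟩ : ∃ c, P = Polynomial.C c := ⟨_, Polynomial.eq_C_of_degree_eq_zero hPdeg⟩
  have hQeq : Q = Polynomial.C c * Polynomial.X ^ m := by
    apply Polynomial.eq_of_infinite_eval_eq
    refine Set.Infinite.mono (s := {0}ᶜ) ?_ (Set.Finite.infinite_compl (Set.finite_singleton 0))
    intro s hs
    have hs0 : s ≠ 0 := hs
    have h1 : (![1, s] : Fin 2 → ℂ) = s • ![s⁻¹, 1] := by
      ext i; fin_cases i <;> simp [hs0]
    simp only [Set.mem_ofPred_eq]
    rw [hQe, h1, eval_smul_homog hh, ← hPe, hc, Polynomial.eval_C, Polynomial.eval_mul,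
      Polynomial.eval_C, Polynomial.eval_pow, Polynomial.eval_X, mul_comm]
  have := hcon ![1, 0] (by intro h1; simpa using congrFun h1 0)
  rw [← hQe, hQeq] at this
  simp [hm.ne'] at this

/-- the degree of the forms giving a rational curve is positive -/
lemma deg_pos {n e : ℕ} {F : Fin (n + 1) → MvPolynomial (Fin 2) ℂ}
    (hF : ∀ i, (F i).IsHomogeneous e)
    (h : ∀ t : Fin 2 → ℂ, t ≠ 0 → (fun i => eval t (F i)) ≠ 0)
    (hnt : Set.Nontrivial {p : PP n | ∃ (t : Fin 2 → ℂ) (ht : t ≠ 0),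
        p = Projectivization.mk ℂ (fun i => eval t (F i)) (h t ht)}) : 0 < e := by
  rcases Nat.eq_zero_or_pos e with rfl | he
  · exfalso
    obtain ⟨p, ⟨t, ht, rfl⟩, q, ⟨s, hs, rfl⟩, hne⟩ := hnt
    apply hne
    congr 1
    funext i
    have h0 : (F i).totalDegree = 0 := (totalDegree_zero_iff_isHomogeneous _).2 (hF i)
    rw [totalDegree_eq_zero_iff_eq_C] at h0
    rw [h0]; simp
  · exact he

/-- every rational curve meets every hypersurface -/
lemma meets_hypersurface {n m : ℕ} {Γ : Set (PP n)} (hΓ : IsRationalCurve Γ)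
    {g : MvPolynomial (Fin (n + 1)) ℂ} (hg : g.IsHomogeneous m) (hm : 0 < m) :
    ∃ r ∈ Γ, r ∈ zeroSet g := by
  obtain ⟨e, F, hF, h, rfl, hnt⟩ := hΓ
  have he := deg_pos hF h hnt
  have hhom : (aeval F g).IsHomogeneous (e * m) := hg.aeval F hF
  obtain ⟨t, ht, h0⟩ := exists_zero_binary hhom (Nat.mul_pos he hm)
  refine ⟨_, ⟨t, ht, rfl⟩, ?_⟩
  rw [mk_mem_zeroSet hg]
  have : (aeval t : MvPolynomial (Fin 2) ℂ →ₐ[ℂ] ℂ).comp (aeval F) =
      aeval (fun i => eval t (F i)) := by
    ext i; simp [aeval_eq_eval]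
  have h2 := DFunLike.congr_fun this g
  simp only [AlgHom.comp_apply, aeval_eq_eval] at h2
  rw [← h2, h0]

end Pool.Agent.MP_776d16_ag.H55
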